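import Pool.Agent.Helper21.LQ.Defs

set_option autoImplicit false

/-!
# LQ, module BETA: list edge colouring when the heavy vertices have few heavy neighbours
-/

namespace Pool.Agent.Helper21.LQ

open Finset

/-- The case of a sparse heavy part. -/
theorem st_BETA (hC : ST_CHAIN) (hT : ST_TOP) : ST_BETA := by
  classical
  intro V _ _ G _ ε β hε hβ hβε hlog hheavy
  have hε1 : ε ≤ 1 := by linarith
  set D : ℕ := G.maxDegree with hD
  set Hv : V → Prop := fun u => (1 - β - ε) * D < (G.degree u : ℝ) with hHv
  set lev : V → ℕ := fun u => if Hv u then 1 else 2 with hlev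
  have hD0 : (0 : ℝ) ≤ D := Nat.cast_nonneg _
  have lev1 : ∀ u, lev u = 1 ↔ Hv u := by
    intro u
    simp only [hlev]
    split_ifs with h <;> simp [h]
  have levlt2 : ∀ u, lev u < 2 ↔ Hv u := by
    intro u
    simp only [hlev]
    split_ifs with h <;> simp [h]
  have levnlt1 : ∀ u, ¬ lev u < 1 := by
    intro u
    simp only [hlev]
    split_ifs with h <;> omega
  have levcases : ∀ u, lev u = 1 ∨ lev u = 2 := by
    intro u
    simp only [hlev]
    split_ifs with h <;> simp
  have hdl : ∀ t, Hv t → (dlow G lev 2 t : ℝ) ≤ β * D := by
    intro t ht
    have h := hheavy t ht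
    have he : dlow G lev 2 t =
        ((G.neighborFinset t).filter (fun u => (1 - β - ε) * G.maxDegree < (G.degree u : ℝ))).card := by
      unfold dlow
      congr 1
      ext u
      simp only [mem_filter, levlt2 u, hHv]
      rfl
    rw [he]
    exact h
  have hgap : ∀ t, Hv t → (1 - β) * D ≤ (D : ℝ) - dlow G lev 2 t := by
    intro t ht
    have := hdl t ht
    linarith
  have hb1 : ε ≤ 1 - β := by linarith
  have hChain : Chain G ε lev D := by
    refine ⟨hε, hε1, ?_, ?_, ?_, ?_⟩
    · by_cases hV : Nonempty V
      · exact le_of_lt (G.maxDegree_lt_card_verts)
      · rw [not_nonempty_iff] at hV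
        have : D = 0 := by
          rw [hD]
          refine Nat.le_zero.mp (G.maxDegree_le_of_forall_degree_le 0 ?_)
          intro v
          exact (hV.false v).elim
        omega
    · refine hlog.trans ?_
      have h1 : ε ^ 26 ≤ ε ^ 25 := pow_le_pow_of_le_one hε.le hε1 (by norm_num)
      exact mul_le_mul_of_nonneg_right h1 hD0
    · intro t r _ htr
      have h1 : lev t = 1 ∧ lev r = 2 := by
        rcases levcases t with h | h <;> rcases levcases r with h' | h' <;> omega
      refine ⟨G.degree_le_maxDegree t, ?_⟩
      rw [h1.2]
      have ht := (lev1 t).mp h1.1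
      have h2 := hgap t ht
      have h3 : ε * D ≤ (D : ℝ) - dlow G lev 2 t :=
        (mul_le_mul_of_nonneg_right hb1 hD0).trans h2
      refine hlog.trans ?_
      calc ε ^ 26 * (D : ℝ) = ε ^ 25 * (ε * D) := by ring
        _ ≤ ε ^ 25 * ((D : ℝ) - dlow G lev 2 t) :=
          mul_le_mul_of_nonneg_left h3 (pow_nonneg hε.le _)
    · intro r _
      rcases levcases r with hr | hr
      · rw [hr]
        have he : (G.neighborFinset r).filter (fun u => lev u < 1) = ∅ := by
          apply filter_eq_empty_iff.mpr
          intro u _
          exact levnlt1 u
        rw [he, sum_empty, zero_add]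
        have h1 := hheavy r ((lev1 r).mp hr)
        have h2 : (((G.neighborFinset r).filter (fun u => lev u = 1)).card : ℝ) ≤ β * D := by
          have he2 : (G.neighborFinset r).filter (fun u => lev u = 1) =
              (G.neighborFinset r).filter
                (fun u => (1 - β - ε) * G.maxDegree < (G.degree u : ℝ)) := by
            ext u
            simp only [mem_filter, lev1 u, hHv]
            rfl
          rw [he2]
          exact h1
        rcases hD0.eq_or_lt with h0 | h0
        · rw [← h0, div_zero]
          linarith
        · rw [div_le_iff₀ h0]
          have : β * (D : ℝ) ≤ (1 - ε) * D :=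
            mul_le_mul_of_nonneg_right (by linarith) hD0
          linarith
      · rw [hr]
        have hnr : ¬ Hv r := by
          intro h
          have := (lev1 r).mpr h
          omega
        have hdr : (G.degree r : ℝ) ≤ (1 - β - ε) * D := not_lt.mp hnr
        rcases hD0.eq_or_lt with h0 | h0
        · have hdeg : G.degree r = 0 := by
            have h1 : (G.degree r : ℝ) ≤ 0 := by
              rw [← h0] at hdr
              linarith
            exact_mod_cast le_antisymm h1 (Nat.cast_nonneg _)
          have hemp : G.neighborFinset r = ∅ := by
            rw [← card_eq_zero, G.card_neighborFinset_eq_degree]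
            exact hdeg
          rw [hemp]
          simp only [filter_empty, sum_empty, card_empty, Nat.cast_zero, zero_div, add_zero]
          linarith
        · have hpos : 0 < (1 - β) * (D : ℝ) := mul_pos (by linarith) h0
          have hs1 : ∑ t ∈ (G.neighborFinset r).filter (fun u => lev u < 2),
              1 / ((D : ℝ) - dlow G lev 2 t) ≤
              (((G.neighborFinset r).filter (fun u => lev u < 2)).card : ℝ) *
                (1 / ((1 - β) * D)) := by
            rw [← nsmul_eq_mul]
            refine sum_le_card_nsmul _ _ _ ?_
            intro t ht
            have h2 := hgap t ((levlt2 t).mp (mem_filter.mp ht).2)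
            exact one_div_le_one_div_of_le hpos h2
          have hs2 : (((G.neighborFinset r).filter (fun u => lev u = 2)).card : ℝ) / D ≤
              (((G.neighborFinset r).filter (fun u => lev u = 2)).card : ℝ) *
                (1 / ((1 - β) * D)) := by
            rw [div_eq_mul_one_div]
            refine mul_le_mul_of_nonneg_left ?_ (Nat.cast_nonneg _)
            refine one_div_le_one_div_of_le hpos ?_
            nlinarith
          have hcard : (((G.neighborFinset r).filter (fun u => lev u < 2)).card : ℝ) +
              (((G.neighborFinset r).filter (fun u => lev u = 2)).card : ℝ) = G.degree r := by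
            rw [← G.card_neighborFinset_eq_degree]
            have he : (G.neighborFinset r).filter (fun u => lev u = 2) =
                (G.neighborFinset r).filter (fun u => ¬ lev u < 2) := by
              ext u
              simp only [mem_filter]
              rcases levcases u with h | h <;> simp [h]
            rw [he]
            exact_mod_cast card_filter_add_card_filter_not
              (s := G.neighborFinset r) (fun u => lev u < 2)
          have hfin : (G.degree r : ℝ) * (1 / ((1 - β) * D)) ≤ 1 - ε := by
            rw [mul_one_div, div_le_iff₀ hpos]
            nlinarith [mul_nonneg (mul_nonneg hε.le hβ) hD0]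
          calc _ ≤ (((G.neighborFinset r).filter (fun u => lev u < 2)).card : ℝ) *
                (1 / ((1 - β) * D)) +
                (((G.neighborFinset r).filter (fun u => lev u = 2)).card : ℝ) *
                (1 / ((1 - β) * D)) := add_le_add hs1 hs2
            _ = (G.degree r : ℝ) * (1 / ((1 - β) * D)) := by rw [← add_mul, hcard]
            _ ≤ 1 - ε := hfin
  refine hT V G ?_
  intro L hL
  obtain ⟨c, _, hc2, hc3⟩ := hC V G ε lev D hChain L (fun _ => 0)
    (fun x y hxy _ => hL x y hxy)
    (fun x _ _ hx _ _ _ _ _ => by
      exfalso
      rcases levcases x with h | h <;> omega)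
  refine ⟨c, ?_, hc3⟩
  intro x y hxy
  refine hc2 x y hxy ?_
  rintro ⟨h, _⟩
  rcases levcases x with h' | h' <;> omega

end Pool.Agent.Helper21.LQ
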